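import Pool.Agent.Helper22.AM.Defs2

/-!
# AM (MP_fb29e9_nt), block C3: the moments of the main sum
-/

open MeasureTheory Real Set Filter Topology

set_option autoImplicit false

namespace Pool.Agent.Helper3.AM

open Pool.Agent.Helper22.AE
open Pool.Agent.Helper22.AM
open Pool.Agent.Helper93.EX (Mx ak prim sn fJ)

/-- the index set of the exponentials -/
noncomputable def TT (N : ℕ) : Finset ((ℤ × ℤ) × ℕ × Bool) := (prim N) ×ˢ (Finset.range N ×ˢ Finset.univ)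

/-- the sign times the harmonic -/
def ss (v : (ℤ × ℤ) × ℕ × Bool) : ℤ := if v.2.2 then ((v.2.1 + 1 : ℕ) : ℤ) else -((v.2.1 + 1 : ℕ) : ℤ)

/-- the amplitude -/
noncomputable def aa (H : ℝ → ℝ) (N : ℕ) (v : (ℤ × ℤ) × ℕ × Bool) : ℂ :=
  if v.2.1 < (N - 1) / sn v.1 then
    ((ak H v.1 * (1 / π * ((v.2.1 + 1 : ℕ) : ℝ) ^ (-(3 / 2) : ℝ)) / 2 : ℝ) : ℂ) *
      Complex.exp ((if v.2.2 then -(3 * π / 4) else (3 * π / 4) : ℝ) * Complex.I)
  else 0

/-- the phase -/
noncomputable def ph (H : ℝ → ℝ) (R : ℝ) (c : ℝ × ℝ) (k : ℤ × ℤ) : ℝ :=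
  R * (nk k * H (tk k)) + ((k.1 : ℝ) * c.1 + (k.2 : ℝ) * c.2)

theorem cos_two (A B x : ℝ) :
    ((A * (B * cos (x - 3 * π / 4)) : ℝ) : ℂ) =
      ((A * B / 2 : ℝ) : ℂ) * Complex.exp (((-(3 * π / 4) : ℝ) : ℂ) * Complex.I) * Complex.exp ((x : ℂ) * Complex.I) +
      ((A * B / 2 : ℝ) : ℂ) * Complex.exp (((3 * π / 4 : ℝ) : ℂ) * Complex.I) * Complex.exp (((-x : ℝ) : ℂ) * Complex.I) := by
  rw [mul_assoc, mul_assoc, ← Complex.exp_add, ← Complex.exp_add]
  push_cast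
  rw [Complex.cos]
  have h1 : -(3 * (π : ℂ) / 4) * Complex.I + x * Complex.I = (x - 3 * π / 4) * Complex.I := by ring
  have h2 : (3 * (π : ℂ) / 4) * Complex.I + -(x : ℂ) * Complex.I = -(x - 3 * π / 4) * Complex.I := by ring
  rw [h1, h2]
  ring

theorem Mx_eq (H : ℝ → ℝ) (N : ℕ) (R : ℝ) (c : ℝ × ℝ) :
    ((Mx H N R c : ℝ) : ℂ) = ∑ v ∈ TT N, aa H N v * Complex.exp ((2 * π * ((ss v : ℝ) * ph H R c v.1) : ℝ) * Complex.I) := by
  unfold Mx TT
  rw [Finset.sum_product, Complex.ofReal_sum]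
  refine Finset.sum_congr rfl fun k hk => ?_
  rw [Finset.sum_product]
  unfold fJ
  have hJ : (N - 1) / sn k ≤ N := (Nat.div_le_self _ _).trans (Nat.sub_le _ _)
  have hsub : Finset.range ((N - 1) / sn k) ⊆ Finset.range N := Finset.range_subset_range.2 hJ
  rw [← Finset.sum_subset hsub]
  · rw [Finset.mul_sum, Finset.mul_sum, Complex.ofReal_sum]
    refine Finset.sum_congr rfl fun j hj => ?_
    have hj' : j < (N - 1) / sn k := Finset.mem_range.1 hj
    have hu : (Finset.univ : Finset Bool) = {true, false} := rfl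
    rw [hu, Finset.sum_pair (by simp)]
    simp only [aa, hj', if_true, ss]
    have e1 : ak H k * (1 / π * (((j + 1 : ℕ) : ℝ) ^ (-(3 / 2) : ℝ) *
        cos (2 * π * (((j + 1 : ℕ) : ℝ) * (R * (nk k * H (tk k)) + ((k.1 : ℝ) * c.1 + (k.2 : ℝ) * c.2))) - 3 * π / 4))) =
        ak H k * ((1 / π * ((j + 1 : ℕ) : ℝ) ^ (-(3 / 2) : ℝ)) *
        cos (2 * π * (((j + 1 : ℕ) : ℝ) * ph H R c k) - 3 * π / 4)) := by
      unfold ph; ring
    rw [e1, cos_two]
    simp only [Bool.false_eq_true, if_false]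
    congr 4
    push_cast
    ring
  · intro j _ hj
    have hj' : ¬ j < (N - 1) / sn k := fun h => hj (Finset.mem_range.2 h)
    refine Finset.sum_eq_zero fun b _ => ?_
    simp [aa, hj']

/-- the frequency of a tuple -/
noncomputable def om (H : ℝ → ℝ) {p : ℕ} (v : Fin p → (ℤ × ℤ) × ℕ × Bool) : ℝ :=
  ∑ i, (ss (v i) : ℝ) * (nk (v i).1 * H (tk (v i).1))

/-- the amplitude of a tuple -/
noncomputable def am (H : ℝ → ℝ) (N : ℕ) {p : ℕ} (v : Fin p → (ℤ × ℤ) × ℕ × Bool) : ℂ := ∏ i, aa H N (v i)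

/-- the part of the phase with the centre -/
noncomputable def cc {p : ℕ} (c : ℝ × ℝ) (v : Fin p → (ℤ × ℤ) × ℕ × Bool) : ℝ :=
  ∑ i, (ss (v i) : ℝ) * (((v i).1.1 : ℝ) * c.1 + ((v i).1.2 : ℝ) * c.2)

theorem Mx_pow (H : ℝ → ℝ) (N p : ℕ) (R : ℝ) (c : ℝ × ℝ) :
    ((Mx H N R c ^ p : ℝ) : ℂ) = ∑ v ∈ Fintype.piFinset (fun _ : Fin p => TT N),
      am H N v * Complex.exp ((2 * π * cc c v : ℝ) * Complex.I) * Complex.exp ((2 * π * om H v : ℝ) * Complex.I * R) := by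
  rw [Complex.ofReal_pow, Mx_eq, Finset.sum_pow']
  refine Finset.sum_congr rfl fun v _ => ?_
  rw [Finset.prod_mul_distrib, ← Complex.exp_sum, mul_assoc, ← Complex.exp_add]
  unfold am
  congr 2
  unfold cc om ph
  push_cast
  rw [← Finset.sum_mul, Finset.mul_sum, Finset.mul_sum, Finset.sum_mul, Finset.sum_mul, Finset.sum_mul, Finset.sum_mul,
    ← Finset.sum_add_distrib]
  refine Finset.sum_congr rfl fun i _ => ?_
  ring

theorem cc_zero {H : ℝ → ℝ} (hres : Res H) {p : ℕ} (v : Fin p → (ℤ × ℤ) × ℕ × Bool) (hv : om H v = 0) (c : ℝ × ℝ) : cc c v = 0 := by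
  have h := hres p (fun i => ss (v i)) (fun i => (v i).1) hv
  have h1 : ∑ i, ss (v i) * (v i).1.1 = 0 := by
    have := congrArg Prod.fst h
    simpa [Prod.fst_sum] using this
  have h2 : ∑ i, ss (v i) * (v i).1.2 = 0 := by
    have := congrArg Prod.snd h
    simpa [Prod.snd_sum] using this
  have h1' : ∑ i, (ss (v i) : ℝ) * ((v i).1.1 : ℝ) = 0 := by exact_mod_cast h1
  have h2' : ∑ i, (ss (v i) : ℝ) * ((v i).1.2 : ℝ) = 0 := by exact_mod_cast h2
  unfold cc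
  have : ∀ i, (ss (v i) : ℝ) * (((v i).1.1 : ℝ) * c.1 + ((v i).1.2 : ℝ) * c.2) =
      ((ss (v i) : ℝ) * ((v i).1.1 : ℝ)) * c.1 + ((ss (v i) : ℝ) * ((v i).1.2 : ℝ)) * c.2 := fun i => by ring
  rw [Finset.sum_congr rfl fun i _ => this i, Finset.sum_add_distrib, ← Finset.sum_mul, ← Finset.sum_mul, h1', h2']
  ring

theorem osc {w X : ℝ} (hw : w ≠ 0) :
    ‖∫ R in X..(2 * X), Complex.exp ((2 * π * w : ℝ) * Complex.I * R)‖ ≤ 2 / (2 * π * |w|) := by
  have hc : ((2 * π * w : ℝ) : ℂ) * Complex.I ≠ 0 := by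
    refine mul_ne_zero ?_ Complex.I_ne_zero
    exact_mod_cast (by positivity : 2 * π * w ≠ 0)
  rw [integral_exp_mul_complex hc, norm_div]
  have h1 : ‖((2 * π * w : ℝ) : ℂ) * Complex.I‖ = 2 * π * |w| := by
    rw [norm_mul, Complex.norm_I, mul_one, Complex.norm_real, Real.norm_eq_abs, abs_mul, abs_of_pos (by positivity : 0 < 2 * π)]
  rw [h1]
  have h2 : ∀ x : ℝ, ‖Complex.exp (((2 * π * w : ℝ) : ℂ) * Complex.I * (x : ℂ))‖ = 1 := fun x => by
    have : ((2 * π * w : ℝ) : ℂ) * Complex.I * (x : ℂ) = ((2 * π * w * x : ℝ) : ℂ) * Complex.I := by push_cast; ring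
    rw [this, Complex.norm_exp_ofReal_mul_I]
  refine div_le_div_of_nonneg_right ?_ (by positivity)
  refine (norm_sub_le _ _).trans ?_
  have e2 := h2 (2 * X)
  have e1 := h2 X
  linarith

/-- C3: the moments of the main sum -/
theorem mx_mean {H : ℝ → ℝ} (hres : Res H) (N p : ℕ) : ∃ m : ℝ, ∀ ε : ℝ, 0 < ε → ∃ X₀ : ℝ, 1 ≤ X₀ ∧ ∀ X : ℝ, X₀ ≤ X → ∀ c : ℝ × ℝ,
    |X⁻¹ * (∫ R in Icc X (2 * X), Mx H N R c ^ p) - m| ≤ ε := by
  classical
  set P := Fintype.piFinset (fun _ : Fin p => TT N) with hP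
  set mc : ℂ := ∑ v ∈ P.filter (fun v => om H v = 0), am H N v with hmc
  set K : ℝ := ∑ v ∈ P.filter (fun v => ¬ om H v = 0), ‖am H N v‖ * (2 / (2 * π * |om H v|)) with hK
  have hK0 : 0 ≤ K := Finset.sum_nonneg fun v _ => by positivity
  refine ⟨mc.re, fun ε hε => ⟨max 1 (K / ε), le_max_left _ _, fun X hX c => ?_⟩⟩
  have hX1 : 1 ≤ X := (le_max_left _ _).trans hX
  have hXK : K / ε ≤ X := (le_max_right _ _).trans hX
  have hX0 : 0 < X := by linarith
  have hX2 : X ≤ 2 * X := by linarith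
  -- the complex integral
  have hint : ((∫ R in Icc X (2 * X), Mx H N R c ^ p : ℝ) : ℂ) = ∑ v ∈ P,
      am H N v * Complex.exp ((2 * π * cc c v : ℝ) * Complex.I) * ∫ R in X..(2 * X), Complex.exp ((2 * π * om H v : ℝ) * Complex.I * R) := by
    rw [integral_Icc_eq_integral_Ioc, ← intervalIntegral.integral_of_le hX2, ← intervalIntegral.integral_ofReal]
    have e1 : ∀ R : ℝ, ((Mx H N R c ^ p : ℝ) : ℂ) = ∑ v ∈ P,
      am H N v * Complex.exp ((2 * π * cc c v : ℝ) * Complex.I) * Complex.exp ((2 * π * om H v : ℝ) * Complex.I * R) :=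
      fun R => Mx_pow H N p R c
    simp_rw [e1]
    rw [intervalIntegral.integral_finsetSum]
    · refine Finset.sum_congr rfl fun v _ => ?_
      rw [intervalIntegral.integral_const_mul]
    · intro v _
      apply Continuous.intervalIntegrable
      fun_prop
  have hsplit : ∑ v ∈ P,
      am H N v * Complex.exp ((2 * π * cc c v : ℝ) * Complex.I) * (∫ R in X..(2 * X), Complex.exp ((2 * π * om H v : ℝ) * Complex.I * R)) =
      (X : ℂ) * mc + ∑ v ∈ P.filter (fun v => ¬ om H v = 0),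
        am H N v * Complex.exp ((2 * π * cc c v : ℝ) * Complex.I) * ∫ R in X..(2 * X), Complex.exp ((2 * π * om H v : ℝ) * Complex.I * R) := by
    rw [← Finset.sum_filter_add_sum_filter_not P (fun v => om H v = 0)]
    congr 1
    rw [hmc, Finset.mul_sum]
    refine Finset.sum_congr rfl fun v hv => ?_
    have hv0 : om H v = 0 := (Finset.mem_filter.1 hv).2
    rw [cc_zero hres v hv0 c, hv0]
    simp only [mul_zero, Complex.ofReal_zero, zero_mul, Complex.exp_zero, mul_one, intervalIntegral.integral_const]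
    rw [Complex.real_smul]
    push_cast
    ring
  have hbound : ‖∑ v ∈ P.filter (fun v => ¬ om H v = 0),
        am H N v * Complex.exp ((2 * π * cc c v : ℝ) * Complex.I) * ∫ R in X..(2 * X), Complex.exp ((2 * π * om H v : ℝ) * Complex.I * R)‖ ≤ K := by
    refine (norm_sum_le _ _).trans (Finset.sum_le_sum fun v hv => ?_)
    have hv0 : om H v ≠ 0 := (Finset.mem_filter.1 hv).2
    rw [norm_mul, norm_mul, Complex.norm_exp_ofReal_mul_I, mul_one]
    exact mul_le_mul_of_nonneg_left (osc hv0) (norm_nonneg _)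
  set I : ℝ := ∫ R in Icc X (2 * X), Mx H N R c ^ p with hI
  have hc : ‖((X⁻¹ * I : ℝ) : ℂ) - mc‖ ≤ ε := by
    have e3 : ((X⁻¹ * I : ℝ) : ℂ) - mc = (X : ℂ)⁻¹ * ∑ v ∈ P.filter (fun v => ¬ om H v = 0),
        am H N v * Complex.exp ((2 * π * cc c v : ℝ) * Complex.I) * ∫ R in X..(2 * X), Complex.exp ((2 * π * om H v : ℝ) * Complex.I * R) := by
      rw [Complex.ofReal_mul, hint, hsplit, Complex.ofReal_inv, mul_add, ← mul_assoc, inv_mul_cancel₀ (by exact_mod_cast hX0.ne'), one_mul]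
      ring
    rw [e3, norm_mul, norm_inv, Complex.norm_real, Real.norm_eq_abs, abs_of_pos hX0]
    calc X⁻¹ * _ ≤ X⁻¹ * K := mul_le_mul_of_nonneg_left hbound (by positivity)
      _ ≤ ε := by
        rw [inv_mul_le_iff₀ hX0]
        have := (div_le_iff₀ hε).1 hXK
        linarith
  have := Complex.abs_re_le_norm (((X⁻¹ * I : ℝ) : ℂ) - mc)
  rw [Complex.sub_re, Complex.ofReal_re] at this
  exact this.trans hc

end Pool.Agent.Helper3.AM
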